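import Pool.Agent.Helper68.QC.St5

/-!
# Project QD part M, module CPL: composition of quasiconformal maps which are `C¹` off the circle
-/

namespace Pool.Agent.Helper33.QCM

open Pool.Agent.Helper68.QC
open MeasureTheory Set Filter Topology Complex
open scoped ContDiff ComplexConjugate ENNReal

/-- the elementary inequality -/
theorem ineq {k k' a b c d L D : ℝ} (hk0 : 0 ≤ k) (hk : k < 1) (hk0' : 0 ≤ k') (hk' : k' < 1)
    (ha : 0 ≤ a) (hb : 0 ≤ b) (hc : 0 ≤ c) (hd : 0 ≤ d) (hL : 0 ≤ L) (hD : 0 ≤ D) (hba : b ≤ k * a)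
    (hdc : d ≤ k' * c) (h1 : D ^ 2 - L ^ 2 = (a ^ 2 - b ^ 2) * (c ^ 2 - d ^ 2)) (h2 : D ≤ a * c + b * d) :
    L ≤ ((k + k') / (1 + k * k')) * D := by
  have hkk : 0 ≤ k * k' := mul_nonneg hk0 hk0'
  have hpos : 0 < 1 + k * k' := by linarith
  have h3 : 0 ≤ k * a - b := by linarith
  have h4 : 0 ≤ c - k' * d := by nlinarith
  have h5 : 0 ≤ k' * c - d := by linarith
  have h6 : 0 ≤ a - k * b := by nlinarith
  have h7 : (1 + k * k') * (a * d + b * c) ≤ (k + k') * (a * c + b * d) := by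
    have := mul_nonneg h3 h4
    have := mul_nonneg h5 h6
    nlinarith
  have h8 : ((1 + k * k') * (a * d + b * c)) ^ 2 ≤ ((k + k') * (a * c + b * d)) ^ 2 :=
    pow_le_pow_left₀ (by positivity) h7 2
  have h9 : D ^ 2 ≤ (a * c + b * d) ^ 2 := pow_le_pow_left₀ hD h2 2
  have h10 : 0 ≤ (1 + k * k') ^ 2 - (k + k') ^ 2 := by
    have h11 : (1 + k * k') ^ 2 - (k + k') ^ 2 = (1 - k ^ 2) * (1 - k' ^ 2) := by ring
    rw [h11]
    exact mul_nonneg (by nlinarith) (by nlinarith)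
  have h11 := mul_le_mul_of_nonneg_left h9 h10
  have h12 : ((1 + k * k') * L) ^ 2 ≤ ((k + k') * D) ^ 2 := by
    have h13 : L ^ 2 = D ^ 2 - ((a * c + b * d) ^ 2 - (a * d + b * c) ^ 2) := by
      have : (a ^ 2 - b ^ 2) * (c ^ 2 - d ^ 2) = (a * c + b * d) ^ 2 - (a * d + b * c) ^ 2 := by ring
      rw [← this, ← h1]
      ring
    rw [mul_pow, mul_pow, h13]
    rw [mul_pow, mul_pow] at h8
    linarith
  have h14 : (1 + k * k') * L ≤ (k + k') * D := by
    have h15 : 0 ≤ (k + k') * D := mul_nonneg (by linarith) hD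
    exact le_of_sq_le_sq h12 h15
  rw [div_mul_eq_mul_div, le_div_iff₀ hpos]
  linarith

theorem cplx {k k' : ℝ} {p q r s : ℂ} (hk0 : 0 ≤ k) (hk : k < 1) (hk0' : 0 ≤ k') (hk' : k' < 1)
    (hp : p ≠ 0) (hr : r ≠ 0) (hq : ‖q‖ ≤ k * ‖p‖) (hs : ‖s‖ ≤ k' * ‖r‖) :
    p * r + q * conj s ≠ 0 ∧ ‖p * s + q * conj r‖ ≤ ((k + k') / (1 + k * k')) * ‖p * r + q * conj s‖ := by
  have hp0 : 0 < ‖p‖ := norm_pos_iff.2 hp
  have hr0 : 0 < ‖r‖ := norm_pos_iff.2 hr
  constructor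
  · intro h
    have h1 : p * r = -(q * conj s) := by linear_combination h
    have h2 := congrArg norm h1
    rw [norm_neg, norm_mul, norm_mul, RCLike.norm_conj] at h2
    have h3 : ‖q‖ * ‖s‖ ≤ (k * ‖p‖) * (k' * ‖r‖) :=
      mul_le_mul hq hs (norm_nonneg _) (mul_nonneg hk0 (norm_nonneg _))
    have h4 : 0 < ‖p‖ * ‖r‖ := mul_pos hp0 hr0
    have h5 : k * k' < 1 := by nlinarith
    nlinarith
  · refine ineq hk0 hk hk0' hk' (norm_nonneg p) (norm_nonneg q) (norm_nonneg r) (norm_nonneg s)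
      (norm_nonneg _) (norm_nonneg _) hq hs ?_ ?_
    · simp only [← Complex.normSq_eq_norm_sq]
      simp only [Complex.normSq_apply, Complex.add_re, Complex.add_im, Complex.mul_re, Complex.mul_im,
        Complex.conj_re, Complex.conj_im]
      ring
    · refine (norm_add_le _ _).trans ?_
      rw [norm_mul, norm_mul, RCLike.norm_conj]

theorem pCPL : StCPL := by
  intro k k' W V hk0 hk hk0' hk' hW hV hWc hVc hmap hWd hVd
  have hopen : IsOpen offS := isOpen_ne_fun continuous_norm continuous_const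
  refine ⟨hW.comp hV, hWc.comp hVc hmap, fun z hz => ?_⟩
  have hdV : DifferentiableAt ℝ V z :=
    (hVc.differentiableOn one_ne_zero).differentiableAt (hopen.mem_nhds hz)
  have hdW : DifferentiableAt ℝ W (V z) :=
    (hWc.differentiableOn one_ne_zero).differentiableAt (hopen.mem_nhds (hmap hz))
  rw [dz_comp hdW hdV, dzb_comp hdW hdV]
  obtain ⟨a1, a2⟩ := hWd (V z) (hmap hz)
  obtain ⟨b1, b2⟩ := hVd z hz
  exact cplx hk0 hk hk0' hk' a1 b1 a2 b2

end Pool.Agent.Helper33.QCM
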